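import Pool.Agent.K6.H95.DS.Desmic
import Pool.Agent.K6.H95.DS.Smooth
import Pool.Agent.K6.H95.DS.Cubic
set_option autoImplicit false

/-!
Beilinson's conjecture on regulators in weight `dim X + 1`, for `i = dim X = 2`: the desmic pencil of
quartic surfaces `X_μ` contains three tetrahedra, at `μ = ∞, 0, 1`. Each of them gives a symbol, and
if `16 μ`, `16 / μ`, `16 / (1 - μ)` are integral, then the three symbols are unramified. Over number
fields with three embeddings in which `μ` is close to `∞`, `0` and `1` their regulators are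
independent; in particular there are infinitely many K3 surfaces over totally real cubic fields with
three unramified classes with independent regulators.
-/

namespace Pool.Agent.Results.MP_a09a03_nt.DesmicCubicFields

open Pool.Agent.TH826.MK (KQ symb Unramified Torus)

open Pool.Agent.K6.H95.SP (PRing ent cst)

open Pool.Agent.K6.H95.DS

open NumberField

section defs

/-- The parameter of `PRing`: the surface `X_μ` is `λ ∏_j (H a)_j = ∏_i a_i` with `λ = 1 / (16 μ)` and
the Hadamard matrix `H` (`HM`). -/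
noncomputable def lam {K : Type*} [Field K] (μ : K) : K := (16 * μ)⁻¹

theorem lam_ne {K : Type*} [Field K] {μ : K} (h1 : μ ≠ 1) : 1 - 16 * lam μ ≠ 0 := by
  unfold lam
  intro h
  apply h1
  by_cases h16 : (16 : K) = 0
  · rw [h16] at h
    simp at h
  · by_cases h0 : μ = 0
    · rw [h0] at h
      simp at h
    · have h2 : (1 - 16 * (16 * μ)⁻¹) * μ = μ - 1 := by
        field_simp
      rw [h, zero_mul] at h2
      exact sub_eq_zero.1 h2.symm

/-- The symbols `{x_1/x_0, x_2/x_0, x_3/x_0}`, where `x` are the coordinates of the first, the second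
or the third tetrahedron (`x = a`, `x = H a` or `x = C a`), have unramified images in the Milnor
K-theory of all fields `L` with a homomorphism from the coordinate ring of the part of `X_μ` where
the coordinates `a_i` do not vanish. -/
def UnramifiedSymbols.{u, v} {K : Type u} [Field K] {μ : K} (h1 : μ ≠ 1) : Prop :=
  ∀ (L : Type v) [Field L] (f : PRing (lam μ) (HM K) →+* L) (k : Fin 3),
    KQ.map 3 f (symb (ent (u3 (lam_ne h1) k))) ∈ Unramified L 3

/-- There are tori of dimension two in the complex points over `σ 0`, `σ 1`, `σ 2`, such that the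
`3 × 3` determinant of the regulators of the three symbols on the three tori does not vanish. -/
def IndependentRegulators {K : Type*} [Field K] (σ : Fin 3 → K →+* ℂ) {μ : K} (h1 : μ ≠ 1) : Prop :=
  ∃ Γ : Fin 3 → Torus (PRing (lam μ) (HM K)) 2,
    (∀ k θ x, (Γ k).e θ (cst (lam μ) (HM K) x) = σ k x) ∧
    (Matrix.of fun k l => (Γ k).reg (symb (ent (u3 (lam_ne h1) l)))).det ≠ 0

/-- At the complex points (over `σ`) of the quartic surface `X_μ` at which no `a_i` vanishes, the
gradient of the equation does not vanish. -/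
def SmoothPoints {K : Type*} [Field K] (σ : K →+* ℂ) (μ : K) : Prop :=
  ∀ x : Fin 4 → ℂ, (∀ i, x i ≠ 0) → MvPolynomial.eval₂ σ x (deqn μ) = 0 →
    ∃ k, MvPolynomial.eval₂ σ x (MvPolynomial.pderiv k (deqn μ)) ≠ 0

end defs

section lemmas

universe u v

theorem unram {K : Type u} [Field K] [CharZero K] {μ : K} (h0 : μ ≠ 0) (h1 : μ ≠ 1)
    (i1 : IsIntegral ℤ (16 * μ)) (i2 : IsIntegral ℤ (16 / μ)) (i3 : IsIntegral ℤ (16 / (1 - μ))) :
    UnramifiedSymbols.{u, v} h1 := by
  intro L _ f k
  have h16 : (16 : K) ≠ 0 := by norm_num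
  have h3 : 1 - μ ≠ 0 := sub_ne_zero.2 (Ne.symm h1)
  refine unram_three f (lam_ne h1) (inv_ne_zero (mul_ne_zero h16 h0)) ?_ ?_ i3 ?_ k
  · unfold lam
    rw [inv_inv]
    exact i1
  · have e : 256 * lam μ = 16 / μ := by
      unfold lam
      field_simp
      norm_num
    rw [e]
    exact i2
  · unfold lam
    field_simp
    ring

theorem exists_C : ∃ C : ℝ, 1 ≤ C ∧ ∀ (K : Type u) [Field K] [CharZero K]
    (σ : Fin 3 → K →+* ℂ) (μ : K) (_ : μ ≠ 0) (h1 : μ ≠ 1), C ≤ ‖σ 0 μ‖ → ‖σ 1 μ‖ ≤ C⁻¹ →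
      ‖σ 2 (1 - μ)‖ ≤ C⁻¹ → IndependentRegulators σ h1 := by
  obtain ⟨C, hC1, hC⟩ := exists_three.{u}
  refine ⟨C, hC1, fun K _ _ σ μ h0 h1 b0 b1 b2 => ?_⟩
  have h16 : (16 : K) ≠ 0 := by norm_num
  have h3 : 1 - μ ≠ 0 := sub_ne_zero.2 (Ne.symm h1)
  have hCpos : 0 < C := by linarith
  have hinv : ∀ (τ : K →+* ℂ) (x : K), x ≠ 0 → ‖τ x‖ ≤ C⁻¹ → C ≤ ‖τ (16 / x)‖ := by
    intro τ x hx hb
    have hx' : 0 < ‖τ x‖ := norm_pos_iff.2 ((map_ne_zero τ).2 hx)
    rw [map_div₀, norm_div, map_ofNat, Complex.norm_ofNat, le_div_iff₀ hx']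
    have h4 : C * ‖τ x‖ ≤ 1 := by
      calc C * ‖τ x‖ ≤ C * C⁻¹ := mul_le_mul_of_nonneg_left hb hCpos.le
        _ = 1 := mul_inv_cancel₀ hCpos.ne'
    linarith
  refine hC K σ (lam μ) (lam_ne h1) (inv_ne_zero (mul_ne_zero h16 h0)) ?_ ?_ ?_
  · unfold lam
    rw [inv_inv, map_mul, norm_mul, map_ofNat, Complex.norm_ofNat]
    linarith
  · have e : 256 * lam μ = 16 / μ := by
      unfold lam
      field_simp
      norm_num
    rw [e]
    exact hinv _ _ h0 b1
  · have e : 256 * lam μ / (16 * lam μ - 1) = 16 / (1 - μ) := by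
      have h5 : 16 * lam μ - 1 = (1 - μ) / μ := by
        unfold lam
        field_simp
      have h6 : 256 * lam μ = 16 / μ := by
        unfold lam
        field_simp
        norm_num
      rw [h5, h6]
      field_simp
    rw [e]
    exact hinv _ _ h3 b2

theorem inj3 {r0 r1 r2 : ℝ} (h01 : r0 ≠ r1) (h02 : r0 ≠ r2) (h12 : r1 ≠ r2) :
    Function.Injective ![r0, r1, r2] := by
  intro k l h
  fin_cases k <;> fin_cases l
  · rfl
  · exact absurd h h01
  · exact absurd h h02
  · exact absurd h.symm h01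
  · rfl
  · exact absurd h h12
  · exact absurd h.symm h02
  · exact absurd h.symm h12
  · rfl

end lemmas

/-- For `μ ≠ 0, 1` let `X_μ` be the quartic surface `(a_0 + a_1 + a_2 + a_3) (a_0 + a_1 - a_2 - a_3)
(a_0 - a_1 + a_2 - a_3) (a_0 - a_1 - a_2 + a_3) = 16 μ a_0 a_1 a_2 a_3`, outside of the coordinate
planes.

For all number fields `K` and `μ ≠ 0, 1` in `K` the surface `X_μ` is smooth, and if `16 μ`, `16 / μ`
and `16 / (1 - μ)` are algebraic integers, the three symbols `{x_1/x_0, x_2/x_0, x_3/x_0}` for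
`x = a`, `x = H a = (a_0 + a_1 + a_2 + a_3, a_0 + a_1 - a_2 - a_3, ...)` and
`x = (-a_0 + a_1 + a_2 + a_3, -a_0 + a_1 - a_2 - a_3, ...)` have unramified images in the Milnor
K-theory of all fields `L` with a homomorphism from the coordinate ring.

There is an absolute constant `C` such that for all number fields `K`, complex embeddings `σ_0`,
`σ_1`, `σ_2` of `K` and `μ ≠ 0, 1` in `K` with `|σ_0 μ| ≥ C`, `|σ_1 μ| ≤ 1 / C`,
`|σ_2 (1 - μ)| ≤ 1 / C` there are tori of dimension two in the complex points of `X_μ` over `σ_0`,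
`σ_1` and `σ_2` such that the determinant of the regulators of the three symbols on the three tori
does not vanish.

For all integers `n` the polynomial `X (X - 1) (X + n) - 1` is irreducible over `ℚ`. If `n` is
sufficiently large, its root `μ_n` generates a totally real cubic field, and the preceding statements
apply: `X_μ`, `μ = μ_n`, is smooth, the three symbols are unramified, and there are tori over the
three embeddings of the field such that the determinant of the regulators does not vanish. -/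
theorem result.{u, v} :
    (∀ (K : Type u) [Field K] [NumberField K] (μ : K) (_ : μ ≠ 0) (h1 : μ ≠ 1),
      (∀ σ : K →+* ℂ, SmoothPoints σ μ) ∧
      (IsIntegral ℤ (16 * μ) → IsIntegral ℤ (16 / μ) → IsIntegral ℤ (16 / (1 - μ)) →
        UnramifiedSymbols.{u, v} h1)) ∧
    (∃ C : ℝ, 1 ≤ C ∧ ∀ (K : Type u) [Field K] [NumberField K] (σ : Fin 3 → K →+* ℂ) (μ : K)
      (_ : μ ≠ 0) (h1 : μ ≠ 1), C ≤ ‖σ 0 μ‖ → ‖σ 1 μ‖ ≤ C⁻¹ → ‖σ 2 (1 - μ)‖ ≤ C⁻¹ →
        IndependentRegulators σ h1) ∧
    (∀ n : ℤ, Irreducible (cub (n : ℚ))) ∧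
    (∃ N : ℤ, ∀ n : ℤ, N ≤ n → ∀ [Fact (Irreducible (cub (n : ℚ)))],
      Module.finrank ℚ (AdjoinRoot (cub (n : ℚ))) = 3 ∧
      IsTotallyReal (AdjoinRoot (cub (n : ℚ))) ∧
      (∀ σ : AdjoinRoot (cub (n : ℚ)) →+* ℂ, SmoothPoints σ (mu n)) ∧
      UnramifiedSymbols.{0, v} (mu_ne_one n) ∧
      ∃ σ : Fin 3 → AdjoinRoot (cub (n : ℚ)) →+* ℂ, Function.Injective σ ∧
        IndependentRegulators σ (mu_ne_one n)) := by
  refine ⟨fun K _ _ μ h0 h1 => ⟨fun σ x hx _ => smooth_desmic σ h0 h1 x hx,
    fun i1 i2 i3 => unram h0 h1 i1 i2 i3⟩, ?_, cub_irr, ?_⟩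
  · obtain ⟨C, hC1, hC⟩ := exists_C.{u}
    exact ⟨C, hC1, fun K _ _ σ μ h0 h1 b0 b1 b2 => hC K σ μ h0 h1 b0 b1 b2⟩
  · obtain ⟨C, hC1, hC⟩ := exists_C.{0}
    refine ⟨max 4 (⌈2 * C + 1⌉), fun n hn _ => ?_⟩
    have hn4 : 4 ≤ n := (le_max_left _ _).trans hn
    have hnC : 2 * C + 1 ≤ n := by
      have h1 : ⌈2 * C + 1⌉ ≤ n := (le_max_right _ _).trans hn
      exact (Int.le_ceil _).trans (by exact_mod_cast h1)
    have hCpos : 0 < C := by linarith
    have hn0 : (0 : ℝ) < n := by linarith
    obtain ⟨r0, r1, r2, ⟨f0, f1, f2⟩, b0, ⟨a1, b1⟩, a2, b2⟩ := exists_roots n hn4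
    have h16 : IsIntegral ℤ (16 : AdjoinRoot (cub (n : ℚ))) := by
      have h := isIntegral_algebraMap (R := ℤ) (A := AdjoinRoot (cub (n : ℚ))) (x := 16)
      simpa using h
    have hδ : 1 / (n : ℝ) ≤ C⁻¹ := by
      rw [one_div]
      exact inv_anti₀ hCpos (by linarith)
    have hδ2 : 2 / (n : ℝ) ≤ C⁻¹ := by
      rw [div_le_iff₀ hn0, inv_mul_eq_div, le_div_iff₀ hCpos]
      linarith
    have h01 : r0 ≠ r1 := by
      intro h
      have : (2 : ℝ) / n ≤ 1 := by
        rw [div_le_one hn0]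
        linarith
      linarith
    have h02 : r0 ≠ r2 := by
      intro h
      linarith
    have h12 : r1 ≠ r2 := by
      intro h
      linarith
    refine ⟨finrank_cub n, ?_, fun σ x hx _ => smooth_desmic σ (mu_ne_zero n) (mu_ne_one n) x hx,
      ?_, ![sig n f0, sig n f1, sig n f2], ?_, ?_⟩
    · refine totReal n {r0, r1, r2} ?_ ?_
      · rw [Finset.card_insert_of_notMem, Finset.card_insert_of_notMem, Finset.card_singleton]
        · simpa using h12
        · simp [h01, h02]
      · intro r hr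
        rw [Finset.mem_insert, Finset.mem_insert, Finset.mem_singleton] at hr
        rcases hr with h | h | h
        · rw [h]; exact f0
        · rw [h]; exact f1
        · rw [h]; exact f2
    · refine unram (mu_ne_zero n) (mu_ne_one n) (h16.mul (int_mu n)) ?_ ?_
      · rw [div_eq_mul_inv]
        exact h16.mul (int_inv n)
      · rw [div_eq_mul_inv]
        exact h16.mul (int_inv' n)
    · have hv : ∀ k : Fin 3, (![sig n f0, sig n f1, sig n f2] k) (mu n) =
          ((![r0, r1, r2] k : ℝ) : ℂ) := by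
        intro k
        fin_cases k
        · exact sig_root n f0
        · exact sig_root n f1
        · exact sig_root n f2
      intro k l h
      have h1 : (![sig n f0, sig n f1, sig n f2] k) (mu n) =
          (![sig n f0, sig n f1, sig n f2] l) (mu n) := by rw [h]
      rw [hv, hv] at h1
      exact inj3 h01 h02 h12 (Complex.ofReal_injective h1)
    · refine hC _ _ (mu n) (mu_ne_zero n) (mu_ne_one n) ?_ ?_ ?_
      · show C ≤ ‖sig n f0 (mu n)‖
        rw [sig_root, Complex.norm_real, Real.norm_eq_abs]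
        have := neg_le_abs r0
        linarith
      · show ‖sig n f1 (mu n)‖ ≤ C⁻¹
        rw [sig_root, Complex.norm_real, Real.norm_eq_abs, abs_of_neg b1]
        linarith
      · show ‖sig n f2 (1 - mu n)‖ ≤ C⁻¹
        rw [map_sub, map_one, sig_root]
        have e : (1 : ℂ) - (r2 : ℂ) = ((1 - r2 : ℝ) : ℂ) := by push_cast; ring
        rw [e, Complex.norm_real, Real.norm_eq_abs, abs_of_neg (by linarith)]
        linarith

end Pool.Agent.Results.MP_a09a03_nt.DesmicCubicFields
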