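import Pool.Agent.K6.H95.SP.Final
import Pool.Agent.K6.H95.TC.Emb
set_option autoImplicit false

/-!
Beilinson's conjecture on regulators in weight `dim X + 1`, for `i = dim X`: the pencils
`X_λ : λ ∏_j (M a)_j = ∏_i a_i` of Calabi-Yau hypersurfaces of degree `s + 2` in projective space of
dimension `s + 1`, where `M` and a multiple of its inverse are fully indecomposable matrices all of
whose entries are zero or roots of unity (for instance Hadamard matrices, matrices of roots of unity
such as the character tables of finite abelian groups, weighing matrices, and totally unimodular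
matrices). Each of the two simplices of the pencil gives an unramified symbol, and the two symbols
are independent over all number fields with infinitely many units.
-/

namespace Pool.Agent.Results.MP_a09a03_nt.DualSimplices

open Pool.Agent.TH826.MK (KQ symb Unramified Torus)

open Pool.Agent.K6.H95.SP

open NumberField

section defs

variable {s : ℕ}

/-- The symbols `{a_1/a_0, ..., a_(s+1)/a_0}` (`k = 0`) and `{b_1/b_0, ..., b_(s+1)/b_0}`, `b = M a`
(`k = 1`), have unramified images in the Milnor K-theory of all fields `L` with a homomorphism from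
the coordinate ring. -/
def UnramifiedSymbols.{u, v} {K : Type u} [Field K] (lam : K)
    (M : Matrix (Fin (s + 2)) (Fin (s + 2)) K) : Prop :=
  ∀ (L : Type v) [Field L] (f : PRing lam M →+* L) (k : Fin 2),
    KQ.map (s + 1) f (symb (ent (u2 lam M k))) ∈ Unramified L (s + 1)

/-- There is a torus of dimension `s` in the complex points over `σ` and one in the complex points
over `τ`, such that the `2 × 2` determinant of the regulators of the two symbols on the two tori does
not vanish. -/
def IndependentRegulators {K : Type*} [Field K] (σ τ : K →+* ℂ) (lam : K)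
    (M : Matrix (Fin (s + 2)) (Fin (s + 2)) K) : Prop :=
  ∃ Γ : Fin 2 → Torus (PRing lam M) s,
    (∀ θ x, (Γ 0).e θ (cst lam M x) = σ x) ∧ (∀ θ x, (Γ 1).e θ (cst lam M x) = τ x) ∧
    (Matrix.of fun k l => (Γ k).reg (symb (ent (u2 lam M l)))).det ≠ 0

end defs

/-- Let `K` be a number field, `s ≥ 1`, and let `M`, `N` be square matrices with `s + 2` rows with
entries in `K`, all of whose entries are zero or roots of unity (`Tors`), and which are fully
indecomposable (`Hall`: for all nonempty proper sets `S` of columns, fewer than `|S|` rows are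
supported in `S`); assume that `M N = δ` is a scalar matrix, `δ ≠ 0`. For `λ ≠ 0` let `X_λ` be the
hypersurface `λ ∏_j b_j = ∏_i a_i`, `b = M a`, in the part `∏_i a_i ≠ 0` of the projective space
with the homogeneous coordinates `a_0, ..., a_(s+1)`.

If `1 / λ` and `δ ^ (s + 2) λ` are algebraic integers (for instance, if `λ` is a unit), the symbols
`{a_1/a_0, ..., a_(s+1)/a_0}` and `{b_1/b_0, ..., b_(s+1)/b_0}` have unramified images in the Milnor
K-theory of all fields `L` with a homomorphism from the coordinate ring of `X_λ` to `L`.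

For all complex embeddings `σ, τ` of `K` there is a constant `C`, such that for all `λ` with
`|σ λ| ≤ 1 / C`, `|τ λ| ≥ C` there is a torus of dimension `s` in the complex points of `X_λ` over
`σ` and one over `τ`, such that the determinant of the regulators of the two symbols on the two tori
does not vanish.

For every unit `ε` of infinite order there are complex embeddings `σ`, `τ` such that this holds for
`λ = ε ^ n` for all large `n`. -/
theorem result.{u, v} (s : ℕ) (_hs : 1 ≤ s) (K : Type u) [Field K] [NumberField K]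
    (M N : Matrix (Fin (s + 2)) (Fin (s + 2)) K) (δ : K) (hδ : δ ≠ 0) (hMN : M * N = δ • 1)
    (hTM : Tors M) (hTN : Tors N) (hM : Hall M) (hN : Hall N) :
    (∀ lam : K, lam ≠ 0 → IsIntegral ℤ lam⁻¹ → IsIntegral ℤ (δ ^ (s + 2) * lam) →
      UnramifiedSymbols.{u, v} lam M) ∧
    (∀ lam : (𝓞 K)ˣ, UnramifiedSymbols.{u, v} (lam : K) M) ∧
    (∀ σ τ : K →+* ℂ, ∃ C : ℝ, 1 ≤ C ∧ ∀ lam : K, lam ≠ 0 → ‖σ lam‖ ≤ C⁻¹ → C ≤ ‖τ lam‖ →
      IndependentRegulators σ τ lam M) ∧
    (∀ ε : (𝓞 K)ˣ, ¬ IsOfFinOrder ε → ∃ σ τ : K →+* ℂ, ∀ᶠ n : ℕ in Filter.atTop,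
      IndependentRegulators σ τ ((ε ^ n : (𝓞 K)ˣ) : K) M) := by
  have hne : ∀ lam : (𝓞 K)ˣ, (lam : K) ≠ 0 := fun lam => NumberField.Units.coe_ne_zero lam
  -- `N M = δ`
  have hNM : N * M = δ • 1 := by
    have h1 : M * (δ⁻¹ • N) = 1 := by
      rw [Matrix.mul_smul, hMN, smul_smul, inv_mul_cancel₀ hδ, one_smul]
    have h2 := _root_.mul_eq_one_comm.1 h1
    rw [Matrix.smul_mul] at h2
    have h3 := congrArg (fun X => δ • X) h2
    simp only [smul_smul] at h3
    rwa [mul_inv_cancel₀ hδ, one_smul] at h3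
  -- `δ` is integral
  have hrow : ∀ {P : Matrix (Fin (s + 2)) (Fin (s + 2)) K}, Tors P → ∀ j i, IsIntegral ℤ (P j i) := by
    intro P hP j i
    rcases hP j i with h | ⟨k, hk, h⟩
    · rw [h]
      exact isIntegral_zero
    · exact IsIntegral.of_pow (Nat.pos_of_ne_zero hk) (by rw [h]; exact isIntegral_one)
  have hδi : IsIntegral ℤ δ := by
    have h1 := congrFun (congrFun hMN 0) 0
    rw [Matrix.smul_apply, Matrix.one_apply_eq, smul_eq_mul, mul_one, Matrix.mul_apply] at h1
    rw [← h1]
    exact IsIntegral.sum _ fun i _ => (hrow hTM _ _).mul (hrow hTN _ _)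
  have hunr : ∀ lam : K, lam ≠ 0 → IsIntegral ℤ lam⁻¹ → IsIntegral ℤ (δ ^ (s + 2) * lam) →
      UnramifiedSymbols.{u, v} lam M := by
    intro lam h0 h1 h2 L _ f k
    fin_cases k
    · exact unram_a f hM hTM h0 h1
    · exact unram_b f hN hTN hNM h2
  have main : ∀ σ τ : K →+* ℂ, ∃ C : ℝ, 1 ≤ C ∧ ∀ lam : K, lam ≠ 0 → ‖σ lam‖ ≤ C⁻¹ →
      C ≤ ‖τ lam‖ → IndependentRegulators σ τ lam M :=
    fun σ τ => exists_two σ τ hδ hMN hM hN
  refine ⟨hunr, fun lam => ?_, main, fun ε hε => ?_⟩
  · have hinv : ((lam : 𝓞 K) : K)⁻¹ = ((lam⁻¹ : (𝓞 K)ˣ) : 𝓞 K) := by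
      rw [inv_eq_iff_eq_inv]
      refine eq_inv_of_mul_eq_one_left ?_
      rw [← map_mul, ← Units.val_mul, mul_inv_cancel, Units.val_one, map_one]
    refine hunr _ (hne lam) ?_ ((hδi.pow _).mul (lam : 𝓞 K).isIntegral_coe)
    rw [hinv]
    exact RingOfIntegers.isIntegral_coe _
  · obtain ⟨τ, hτ⟩ := Pool.Agent.K6.H95.TC.exists_large ε hε
    obtain ⟨σ, hσ⟩ := Pool.Agent.K6.H95.TC.exists_small ε hε
    obtain ⟨C, hC1, hC⟩ := main σ τ
    refine ⟨σ, τ, ?_⟩
    have t1 := tendsto_pow_atTop_atTop_of_one_lt hτ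
    have t2 := tendsto_pow_atTop_nhds_zero_of_lt_one (norm_nonneg _) hσ
    have hCpos : 0 < C⁻¹ := by positivity
    filter_upwards [t1.eventually_ge_atTop C, t2.eventually_lt_const hCpos] with n h1 h2
    have e : ∀ φ : K →+* ℂ, ‖φ ((ε ^ n : (𝓞 K)ˣ) : K)‖ = ‖φ (ε : K)‖ ^ n := by
      intro φ
      rw [Units.val_pow_eq_pow_val, map_pow, map_pow, norm_pow]
    refine hC _ (hne _) ?_ ?_
    · rw [e]; exact h2.le
    · rw [e]; exact h1

end Pool.Agent.Results.MP_a09a03_nt.DualSimplices
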