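import Pool.Agent.K6.H95.OC.Fin8
set_option autoImplicit false

/-!
Beilinson's conjecture on regulators for `K_2` of elliptic curves (`d = 2`, `i = 1`) over totally
real octic fields: a family of elliptic curves `E_n` over totally real fields `K_n` of degree `8`
(`n` a large integer) with the predicted number, eight, of classes in the integral part of
`K_2 ⊗ ℚ` with regulators linearly independent over the real numbers.
-/

namespace Pool.Agent.Results.MP_a09a03_nt.OcticFields

open Pool.Agent.W367.KT Pool.Agent.T6.H7.SX NumberField Pool.Agent.K6.H95.OC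

/-- Let `P_n = (X² - 1)⁴ + 2 n² X (X² - 1)³ + (n⁴ - 4 n² + 8) X² (X² - 1)² - 8 n² X³ (X² - 1) + 16 X⁴`
(`PO n`). It is irreducible over `ℚ` for all integers `n ≥ 3`. Let `s` be the root of `P_n` in
`K_n = ℚ[X]/(P_n)` and `b = s² (s + 1) / (s - 1)` (`eb s`). There is an `N` such that for all integers
`n ≥ N` the field `K_n` is totally real of degree `8` over `ℚ`, the curve
`E : Y ^ 2 + (1 - b) X Y - b Y = X ^ 3 - b X ^ 2` (`tate b`) over `K_n` is an elliptic curve, and
there are eight classes in `K_2 (K_n(E)) ⊗ ℚ` with trivial tame symbols at all discrete valuations of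
the function field `K_n(E)`, linearly independent over `ℚ`, and eight closed paths in the complex
points of `E`, one over each of the eight embeddings of `K_n`, such that the matrix of the regulator
integrals of the classes along the paths is invertible (`FullRank (tate b) 8`). Every real quadratic
field is contained in `K_n` for infinitely many `n`. -/
theorem result :
    (∀ n : ℤ, 3 ≤ n → Irreducible (PO (n : ℚ))) ∧
    (∃ N : ℤ, ∀ n : ℤ, N ≤ n → ∀ [Fact (Irreducible (PO (n : ℚ)))],
      Module.finrank ℚ (AdjoinRoot (PO (n : ℚ))) = 8 ∧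
      IsTotallyReal (AdjoinRoot (PO (n : ℚ))) ∧
      (tate (eb (AdjoinRoot.root (PO (n : ℚ))))).IsElliptic ∧
      FullRank (tate (eb (AdjoinRoot.root (PO (n : ℚ))))) 8) ∧
    ∀ D : ℤ, 0 < D → ¬ IsSquare D → ∀ B : ℤ, ∃ n : ℤ, B ≤ n ∧
      ∃ x : AdjoinRoot (PO (n : ℚ)), x ^ 2 = (D : AdjoinRoot (PO (n : ℚ))) := by
  obtain ⟨N, hN⟩ := full8
  refine ⟨fun n hn => irr8 hn, ⟨N, fun n hn _ => ⟨finrank8 n, hN n hn⟩⟩, fun D hD hsq B => sqrt_mem hD hsq B⟩

end Pool.Agent.Results.MP_a09a03_nt.OcticFields
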