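import Pool.Agent.K6.H95.TC.Final
import Pool.Agent.K6.H95.TC.Smooth
import Pool.Agent.K6.H95.TC.Emb
set_option autoImplicit false

/-!
Beilinson's conjecture on regulators in weight `dim X + 1`, for `i = dim X`: the hypersurfaces
`X_λ : λ ∏_k ∏_i (x_k - ζ_{k,i}) = ∏_k x_k`, `λ` a unit of a number field `K`, `ζ_{k,i} ∈ K` roots of
unity. There are *two* kinds of unramified symbols, which degenerate at the two different cusps
`λ = 0` and `λ = ∞` of the pencil: for units `λ` of infinite order they give `p_g + 1` unramified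
classes with linearly independent regulators over every number field with infinitely many units, in
every dimension (for instance two classes on Calabi-Yau varieties of every dimension over every
real quadratic field).
-/

namespace Pool.Agent.Results.MP_a09a03_nt.TwoCusps

open Pool.Agent.TH826.MK (KQ symb Unramified Torus)

open Pool.Agent.K6.H95.TC

open NumberField

section defs

variable {K : Type*} [Field K] {n : ℕ} {r : Fin n → ℕ}

/-- The symbols `{x_0, ..., x_d}` (`c = none`) and `{f_0, ..., f_d}`,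
`f_k = (x_k - ζ_{k,i_k}) / (x_k - ζ_{k,i_k + 1})` (`c = some i`, `i_k < r_k`) have unramified images
in the Milnor K-theory of all fields `L` with a homomorphism from the coordinate ring. -/
def UnramifiedSymbols.{u, v} {K : Type u} [Field K] (lam : K) (z : ∀ k, Fin (r k + 1) → K) : Prop :=
  ∀ (L : Type v) [Field L] (f : CRing lam z →+* L) (c : Option (∀ k, Fin (r k))),
    KQ.map n f (symb (ent lam z c)) ∈ Unramified L n

/-- The gradient of the equation `λ ∏_k ∏_i (x_k - ζ_{k,i}) = ∏_k x_k` does not vanish at the complex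
points (over `σ`) of the hypersurface with `x_k ≠ 0`. -/
def SmoothPoints (σ : K →+* ℂ) (lam : K) (z : ∀ k, Fin (r k + 1) → K) : Prop :=
  ∀ x : Fin n → ℂ, (∀ k, x k ≠ 0) → MvPolynomial.eval₂ σ x (heqn lam z) = 0 →
    ∃ k, MvPolynomial.eval₂ σ x (MvPolynomial.pderiv k (heqn lam z)) ≠ 0

/-- There are `∏ r_k` tori of dimension `d` in the complex points over `σ` and one torus in the
complex points over `τ`, such that the `(∏ r_k + 1) × (∏ r_k + 1)` determinant of the regulators of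
the symbols on the tori does not vanish. -/
def IndependentRegulators {d : ℕ} {r : Fin (d + 1) → ℕ} (σ τ : K →+* ℂ) (lam : K)
    (z : ∀ k, Fin (r k + 1) → K) : Prop :=
  ∃ Γ : Option (∀ k, Fin (r k)) → Torus (CRing lam z) d,
    (∀ θ x, (Γ none).e θ (cst lam z x) = τ x) ∧
    (∀ t θ x, (Γ (some t)).e θ (cst lam z x) = σ x) ∧
    (Matrix.of fun a b => (Γ a).reg (symb (ent lam z b))).det ≠ 0

end defs

/-- Let `K` be a number field, `d ≥ 1`, `r_0, ..., r_d ≥ 1`, and let `ζ_{k,0}, ..., ζ_{k,r_k} ∈ K` be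
different roots of unity for `0 ≤ k ≤ d`. For a unit `λ` of the ring of integers of `K` let `X_λ` be
the hypersurface `λ ∏_k ∏_i (x_k - ζ_{k,i}) = ∏_k x_k` in the torus `x_k ≠ 0` (of dimension `d`).

For all units `λ` the symbols `{x_0, ..., x_d}` and `{f_0, ..., f_d}`,
`f_k = (x_k - ζ_{k,i_k}) / (x_k - ζ_{k,i_k + 1})`, `0 ≤ i_k < r_k`, have unramified images in the
Milnor K-theory of all fields `L` with a homomorphism from the coordinate ring of `X_λ` to `L`.

For all complex embeddings `σ, τ` of `K` there is a constant `C`, such that for all units `λ` with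
`|σ λ| ≥ C`, `|τ λ| ≤ 1 / C` the hypersurface is smooth (the gradient of the equation does not vanish
at the complex points over `σ` and over `τ`), and there are `∏ r_k` tori of dimension `d` in its
complex points over `σ` and one in its complex points over `τ`, such that the determinant of the
regulators of these `∏ r_k + 1` symbols on the `∏ r_k + 1` tori does not vanish.

For every unit `ε` of infinite order there are complex embeddings `σ`, `τ` such that this holds for
`λ = ε ^ N` for all large `N`. -/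
theorem result.{u, v} (d : ℕ) (_hd : 1 ≤ d) (K : Type u) [Field K] [NumberField K]
    (r : Fin (d + 1) → ℕ) (hr : ∀ k, 1 ≤ r k) (z : ∀ k, Fin (r k + 1) → K)
    (hz : ∀ k, Function.Injective (z k)) (hroot : ∀ k i, ∃ m : ℕ, m ≠ 0 ∧ z k i ^ m = 1) :
    (∀ lam : (𝓞 K)ˣ, UnramifiedSymbols.{u, v} (lam : K) z) ∧
    (∀ σ τ : K →+* ℂ, ∃ C : ℝ, 1 ≤ C ∧ ∀ lam : (𝓞 K)ˣ,
      C ≤ ‖σ (lam : K)‖ → ‖τ (lam : K)‖ ≤ C⁻¹ →
        SmoothPoints σ (lam : K) z ∧ SmoothPoints τ (lam : K) z ∧
        IndependentRegulators σ τ (lam : K) z) ∧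
    (∀ ε : (𝓞 K)ˣ, ¬ IsOfFinOrder ε → ∃ σ τ : K →+* ℂ, ∀ᶠ N : ℕ in Filter.atTop,
      SmoothPoints σ ((ε ^ N : (𝓞 K)ˣ) : K) z ∧ SmoothPoints τ ((ε ^ N : (𝓞 K)ˣ) : K) z ∧
        IndependentRegulators σ τ ((ε ^ N : (𝓞 K)ˣ) : K) z) := by
  have hne : ∀ lam : (𝓞 K)ˣ, (lam : K) ≠ 0 := fun lam =>
    NumberField.Units.coe_ne_zero lam
  have hz0 : ∀ k i, z k i ≠ 0 := by
    intro k i h0
    obtain ⟨m, hm, h1⟩ := hroot k i
    rw [h0, zero_pow hm] at h1
    exact zero_ne_one h1
  have main : ∀ σ τ : K →+* ℂ, ∃ C : ℝ, 1 ≤ C ∧ ∀ lam : (𝓞 K)ˣ,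
      C ≤ ‖σ (lam : K)‖ → ‖τ (lam : K)‖ ≤ C⁻¹ →
        SmoothPoints σ (lam : K) z ∧ SmoothPoints τ (lam : K) z ∧
        IndependentRegulators σ τ (lam : K) z := by
    intro σ τ
    obtain ⟨c1, hc1, h1⟩ := exists_tori σ τ z hz hz0
    obtain ⟨c2, hc2, h2⟩ := exists_smooth σ hr z hz
    obtain ⟨c3, hc3, h3⟩ := exists_smooth τ hr z hz
    refine ⟨max c1 (max c2 c3), hc1.trans (le_max_left _ _), fun lam hl hl' => ?_⟩
    have e1 : c1 ≤ max c1 (max c2 c3) := le_max_left _ _
    have e2 : c2 ≤ max c1 (max c2 c3) := (le_max_left _ _).trans (le_max_right _ _)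
    have e3 : c3 ≤ max c1 (max c2 c3) := (le_max_right _ _).trans (le_max_right _ _)
    have hinv : ∀ c : ℝ, 1 ≤ c → c ≤ max c1 (max c2 c3) → (max c1 (max c2 c3))⁻¹ ≤ c⁻¹ :=
      fun c hc h => inv_anti₀ (by linarith) h
    refine ⟨h2 lam (hne lam) (Or.inl (e2.trans hl)),
      h3 lam (hne lam) (Or.inr (hl'.trans (hinv c3 hc3 e3))), ?_⟩
    obtain ⟨Γ, hΓ1, hΓ2⟩ := h1 lam (hne lam) (e1.trans hl) (hl'.trans (hinv c1 hc1 e1))
    exact ⟨Γ, fun θ x => hΓ1 none θ x, fun t θ x => hΓ1 (some t) θ x, hΓ2⟩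
  refine ⟨fun lam L _ f c => ?_, main, fun ε hε => ?_⟩
  · refine symb_mem_unramified f ⟨hr, ?_, ?_, hne lam, hroot⟩ c
    · exact (lam : 𝓞 K).isIntegral_coe
    · have : ((lam : 𝓞 K) : K)⁻¹ = ((lam⁻¹ : (𝓞 K)ˣ) : 𝓞 K) := by
        rw [inv_eq_iff_eq_inv]
        refine eq_inv_of_mul_eq_one_left ?_
        rw [← map_mul, ← Units.val_mul, mul_inv_cancel, Units.val_one, map_one]
      rw [this]
      exact RingOfIntegers.isIntegral_coe _
  · obtain ⟨σ, hσ⟩ := exists_large ε hε
    obtain ⟨τ, hτ⟩ := exists_small ε hε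
    obtain ⟨C, hC1, hC⟩ := main σ τ
    refine ⟨σ, τ, ?_⟩
    have t1 := tendsto_pow_atTop_atTop_of_one_lt hσ
    have t2 := tendsto_pow_atTop_nhds_zero_of_lt_one (norm_nonneg _) hτ
    have hCpos : 0 < C⁻¹ := by positivity
    filter_upwards [t1.eventually_ge_atTop C, t2.eventually_lt_const hCpos] with N h1 h2
    have e : ∀ φ : K →+* ℂ, ‖φ ((ε ^ N : (𝓞 K)ˣ) : K)‖ = ‖φ (ε : K)‖ ^ N := by
      intro φ
      rw [Units.val_pow_eq_pow_val, map_pow, map_pow, norm_pow]
    refine hC (ε ^ N) ?_ ?_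
    · rw [e]; exact h1
    · rw [e]; exact h2.le

end Pool.Agent.Results.MP_a09a03_nt.TwoCusps
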